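import Pool.Agent.Y352.SP.Main6

/-!
# The polytope invariant of a group with a 2-dimensional classifying space is a polytope

Let `Γ ≠ ℤ` be a finitely generated `L²`-acyclic group which satisfies the Atiyah Conjecture and
has a finite 2-dimensional classifying space. Then the polytope invariant `P(Γ)`, the negative of
the polytope of the torsion of `D(Γ) ⊗ C_*`, is represented by a single polytope.
-/

set_option autoImplicit false

attribute [local instance] L2B.instRingN

namespace Pool.Agent.Results.MP_55fbef_al.SinglePolytope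

open scoped TensorProduct Pointwise

/-- The sequence `0 → ℤ[Γ]^c → ℤ[Γ]^b → ℤ[Γ]^a → ℤ → 0` of left modules given by right
multiplication of row vectors with `A` and `B` and by the augmentation is exact, and `a > 0`. -/
structure IsResolution {Γ : Type} [Group Γ] {a b c : ℕ}
    (A : Matrix (Fin c) (Fin b) (MonoidAlgebra ℤ Γ))
    (B : Matrix (Fin b) (Fin a) (MonoidAlgebra ℤ Γ)) : Prop where
  pos : 0 < a
  exact_zero : ∀ v : Fin a → MonoidAlgebra ℤ Γ,
    ∑ i, MonoidAlgebra.lift ℤ ℤ Γ (1 : Γ →* ℤ) (v i) = 0 ↔ ∃ w, v = Matrix.vecMul w B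
  exact_one : ∀ v : Fin b → MonoidAlgebra ℤ Γ,
    Matrix.vecMul v B = 0 ↔ ∃ w, v = Matrix.vecMul w A
  exact_two : ∀ w : Fin c → MonoidAlgebra ℤ Γ, Matrix.vecMul w A = 0 → w = 0

/-- `ι : N(Γ) → U` is the localisation of the group von Neumann algebra at its non zero divisors,
so `U` is the algebra of affiliated operators, and `κ : D → U` is an embedding of a division ring
onto the division closure of `ℤ[Γ]` in `U`; the element `u g` of `D` corresponds to `g ∈ Γ`. -/
structure IsDivisionClosure {Γ : Type} [Group Γ] {U D : Type} [Ring U] [DivisionRing D]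
    (ι : L2B.N Γ →+* U) (κ : D →+* U) (u : Γ →* Dˣ) : Prop where
  inj : Function.Injective ι
  unit : ∀ s : L2B.N Γ, (∀ z, z * s = 0 → z = 0) → IsUnit (ι s)
  left : ∀ y : U, ∃ s x : L2B.N Γ, (∀ z, z * s = 0 → z = 0) ∧ ι s * y = ι x
  right : ∀ y : U, ∃ s x : L2B.N Γ, (∀ z, z * s = 0 → z = 0) ∧ y * ι s = ι x
  group : ∀ g : Γ, κ ((u g : Dˣ) : D) = ι (L2B.lam g)
  gen : ∀ x : D, x ∈ Subfield.closure {x : D | ∃ g : Γ, x = ((u g : Dˣ) : D)}

/-- The ring homomorphism `ℤ[Γ] → D` which extends `u`. -/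
noncomputable def toD {Γ : Type} [Group Γ] {D : Type} [DivisionRing D] (u : Γ →* Dˣ) :
    MonoidAlgebra ℤ Γ →+* D :=
  (MonoidAlgebra.lift ℤ D Γ ((Units.coeHom D).comp u)).toRingHom

/-- The square matrix `M` and the unit `x` have the same class in `K_1(D)`: for some `N` the
matrix `M ⊕ 1` is the product of a product `E` of elementary matrices `1 + c e_{ij}`, `i ≠ j`,
and the diagonal matrix `1 ⊕ (x, 1, …, 1)`. -/
def SameClass {D : Type} [DivisionRing D] {b : ℕ} (M : Matrix (Fin b) (Fin b) D) (x : D) : Prop :=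
  ∃ (N : ℕ) (E : Matrix (Fin b ⊕ Fin (N + 1)) (Fin b ⊕ Fin (N + 1)) D),
    E ∈ Submonoid.closure {T : Matrix (Fin b ⊕ Fin (N + 1)) (Fin b ⊕ Fin (N + 1)) D |
      ∃ (i j : Fin b ⊕ Fin (N + 1)) (c : D), i ≠ j ∧ T = 1 + Matrix.single i j c} ∧
    Matrix.fromBlocks M 0 0 (1 : Matrix (Fin (N + 1)) (Fin (N + 1)) D) =
      E * Matrix.diagonal (Function.update (fun _ => 1) (Sum.inr 0) x)

/-- The unit `x` represents the torsion in `K_1(D)/±1` of the acyclic based complex
`0 → D^c → D^b → D^a → 0` with the differentials `A` and `B`: there is a chain contraction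
`F : D^a → D^b`, `G : D^b → D^c`, and `x` is the class of the isomorphism
`[B | G] : D^b → D^a ⊕ D^c` from the odd to the even chains. -/
def IsTorsion {D : Type} [DivisionRing D] {a b c : ℕ} (A : Matrix (Fin c) (Fin b) D)
    (B : Matrix (Fin b) (Fin a) D) (x : D) : Prop :=
  ∃ (F : Matrix (Fin a) (Fin b) D) (G : Matrix (Fin b) (Fin c) D) (σ : Fin b ≃ Fin a ⊕ Fin c),
    F * B = 1 ∧ B * F + G * A = 1 ∧ A * G = 1 ∧ x ≠ 0 ∧
    SameClass ((Matrix.fromCols B G).submatrix id σ) x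

/-- The kernel `K` of the projection of `Γ` to `H = H_1(Γ; ℤ)/torsion`. -/
def kerH (Γ : Type) [Group Γ] : Subgroup Γ :=
  (CommGroup.torsion (Abelianization Γ)).comap Abelianization.of

/-- `f = ∑_{g ∈ T} c_g g` where `g` runs through the finite set `T` of elements of pairwise
different cosets of `K`, and the `c_g` are nonzero elements of `D(K)`, the division subring
generated by `K`. So the image of `T` in `H` is the support of `f ∈ D(K) * H`. -/
def HasSupport {Γ : Type} [Group Γ] {D : Type} [DivisionRing D] (u : Γ →* Dˣ) (f : D)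
    (T : Finset Γ) : Prop :=
  ∃ c : Γ → D,
    (∀ g ∈ T, c g ∈ Subfield.closure {x : D | ∃ k ∈ kerH Γ, x = ((u k : Dˣ) : D)} ∧ c g ≠ 0) ∧
    (∀ g ∈ T, ∀ h ∈ T, g ≠ h → g * h⁻¹ ∉ kerH Γ) ∧ f = ∑ g ∈ T, c g * ((u g : Dˣ) : D)

/-- The polytope in `H_1(Γ; ℝ)` with the classes of the elements of `T`: their convex hull. -/
def hull {Γ : Type} [Group Γ] (T : Finset Γ) : Set (ℝ ⊗[ℤ] (Additive (Abelianization Γ))) :=
  convexHull ℝ ((fun g : Γ => (1 : ℝ) ⊗ₜ[ℤ] (Additive.ofMul (Abelianization.of g))) '' (T : Set Γ))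

/-- The polytope invariant `P(Γ) = -P(τ)` is the class of the formal difference
`hull P - hull Q`: there is a unit `x` which represents the torsion `τ` of `D ⊗ C_*`, and
`x = g⁻¹ f` or `x = f g⁻¹`, where `g` has the support `P` and `f` has the support `Q`. -/
def IsPolytopeInvariant {Γ : Type} [Group Γ] {D : Type} [DivisionRing D] (u : Γ →* Dˣ)
    {a b c : ℕ} (A : Matrix (Fin c) (Fin b) (MonoidAlgebra ℤ Γ))
    (B : Matrix (Fin b) (Fin a) (MonoidAlgebra ℤ Γ)) (P Q : Finset Γ) : Prop :=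
  ∃ x f g : D, IsTorsion (A.map (toD u)) (B.map (toD u)) x ∧ g ≠ 0 ∧
    (g * x = f ∨ x * g = f) ∧ HasSupport u g P ∧ HasSupport u f Q

/-- Let `Γ ≠ ℤ` be a finitely generated `L²`-acyclic group which satisfies the Atiyah Conjecture,
and let a resolution of length two of `ℤ` by finitely generated free `ℤ[Γ]`-modules be given, for
example the cellular chain complex of the universal covering of a finite 2-dimensional
`K(Γ, 1)`. Then `D(Γ)` exists, the polytope invariant exists, and it is the class of a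
polytope. -/
theorem result (Γ : Type) [Group Γ] [Group.FG Γ] (hZ : ¬ Nonempty (Γ ≃* Multiplicative ℤ))
    (hA : L2B.Atiyah Γ) (h0 : ∀ n, L2B.l2Betti Γ n = 0) {a b c : ℕ}
    (A : Matrix (Fin c) (Fin b) (MonoidAlgebra ℤ Γ))
    (B : Matrix (Fin b) (Fin a) (MonoidAlgebra ℤ Γ)) (h : IsResolution A B) :
    (∃ (U : Type) (_ : Ring U) (ι : L2B.N Γ →+* U) (D : Type) (_ : DivisionRing D)
      (κ : D →+* U) (u : Γ →* Dˣ), IsDivisionClosure ι κ u) ∧
    ∀ (U : Type) [Ring U] (ι : L2B.N Γ →+* U) (D : Type) [DivisionRing D] (κ : D →+* U)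
      (u : Γ →* Dˣ), IsDivisionClosure ι κ u →
      (∃ P Q : Finset Γ, IsPolytopeInvariant u A B P Q) ∧
      ∃ R : Finset Γ, R.Nonempty ∧ ∀ P Q : Finset Γ, IsPolytopeInvariant u A B P Q →
        hull P = hull Q + hull R := by
  have hres : Pool.Agent.Y352.SP.IsRes A B := ⟨h.pos, h.exact_zero, h.exact_one, h.exact_two⟩
  refine ⟨?_, ?_⟩
  · obtain ⟨U, hU, ι, D, hD, κ, u, hι, hu, hgen⟩ := Pool.Agent.Y352.SP.exists_closure hA
    refine ⟨U, hU, ι, D, hD, κ, u, hι.inj, hι.unit, hι.left, hι.right, hu, fun x => ?_⟩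
    have h1 : {x : D | ∃ g ∈ (⊤ : Subgroup Γ), x = ((u g : Dˣ) : D)} =
        {x : D | ∃ g : Γ, x = ((u g : Dˣ) : D)} := by
      ext x
      simp
    rw [← h1]
    exact hgen x
  · intro U _ ι D _ κ u hD
    have hι : Pool.Agent.RK.Loc ι := ⟨hD.inj, hD.unit, hD.left, hD.right⟩
    have hgen : ∀ x : D, x ∈ TN970.Dc u ⊤ := by
      intro x
      have h1 : {x : D | ∃ g ∈ (⊤ : Subgroup Γ), x = ((u g : Dˣ) : D)} =
          {x : D | ∃ g : Γ, x = ((u g : Dˣ) : D)} := by
        ext x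
        simp
      show x ∈ Subfield.closure {x : D | ∃ g ∈ (⊤ : Subgroup Γ), x = ((u g : Dˣ) : D)}
      rw [h1]
      exact hD.gen x
    refine ⟨?_, ?_⟩
    · obtain ⟨x, f, g, S, T, hx, hg, hfg, hS, hT⟩ :=
        Pool.Agent.Y352.SP.exists_inv hι hD.group hgen h0 hres
      exact ⟨T, S, x, f, g, hx, hg, Or.inl hfg, hT, hS⟩
    · obtain ⟨R, hR, hR2⟩ := Pool.Agent.Y352.SP.single hZ hι hD.group hgen hres
      refine ⟨R, hR, ?_⟩
      rintro P Q ⟨x, f, g, hx, hg, hfg, hP, hQ⟩
      exact hR2 x f g Q P hx hg hfg hQ hP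

end Pool.Agent.Results.MP_55fbef_al.SinglePolytope
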